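import Pool.Agent.W402.HI.Defs

/-! # HI-C2: the mirror image of the cut-off construction -/

set_option autoImplicit false

open Filter Topology MeasureTheory Metric

namespace Pool.Agent.W613.HI

open Pool.Agent.W402.HI

/-- rotation by 180 degrees about `c` -/
noncomputable def sg (c : ℝ) (z : ℂ) : ℂ := 2 * (c : ℂ) - z

theorem sg_sg (c : ℝ) (z : ℂ) : sg c (sg c z) = z := by unfold sg; ring

theorem sg_cont (c : ℝ) : Continuous (sg c) := by unfold sg; fun_prop

theorem sg_re (c : ℝ) (z : ℂ) : (sg c z).re = 2 * c - z.re := by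
  unfold sg
  simp

theorem sg_sub (c : ℝ) (z w : ℂ) : sg c z - sg c w = -(z - w) := by unfold sg; ring

theorem sg_inj (c : ℝ) : Function.Injective (sg c) := fun z w h => by
  have := congrArg (sg c) h
  rwa [sg_sg, sg_sg] at this

theorem mem_img (c : ℝ) (E : Set ℂ) (z : ℂ) : z ∈ sg c '' E ↔ sg c z ∈ E := by
  constructor
  · rintro ⟨w, hw, rfl⟩
    rwa [sg_sg]
  · intro h
    exact ⟨sg c z, h, sg_sg c z⟩

theorem absre (c : ℝ) (z w d : ℂ) :
    |((sg c z - sg c w) / d).re| = |((z - w) / d).re| := by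
  rw [sg_sub, neg_div, Complex.neg_re, abs_neg]

theorem absim (c : ℝ) (z w d : ℂ) :
    |((sg c z - sg c w) / d).im| = |((z - w) / d).im| := by
  rw [sg_sub, neg_div, Complex.neg_im, abs_neg]

theorem nrm (c : ℝ) (z w : ℂ) : ‖sg c z - sg c w‖ = ‖z - w‖ := by
  rw [sg_sub, norm_neg]

theorem main (h : P_C1) : P_C2 := by
  intro E hE c Z dir hG N A hN hNc hcone
  classical
  obtain ⟨hZ, hdir⟩ := hG
  have hZ' : ∀ z : ℂ, z ∈ Z.image (sg c) ↔ sg c z ∈ Z := by
    intro z
    rw [Finset.mem_image]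
    constructor
    · rintro ⟨w, hw, rfl⟩
      rwa [sg_sg]
    · intro h
      exact ⟨sg c z, h, sg_sg c z⟩
  have hG' : GoodLine (sg c '' E) c (Z.image (sg c)) (fun z => dir (sg c z)) := by
    refine ⟨fun z => ?_, fun w hw => ?_⟩
    · rw [hZ', hZ, mem_img, sg_re]
      constructor
      · rintro ⟨h1, h2⟩
        exact ⟨h1, by linarith⟩
      · rintro ⟨h1, h2⟩
        exact ⟨h1, by linarith⟩
    · obtain ⟨h1, h2, h3⟩ := hdir (sg c w) ((hZ' w).1 hw)
      refine ⟨h1, h2, fun θ hθ => ?_⟩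
      obtain ⟨r, hr, h4⟩ := h3 θ hθ
      refine ⟨r, hr, fun z hz hzr => ?_⟩
      have h5 := h4 (sg c z) ((mem_img c E z).1 hz) (by rwa [nrm])
      rwa [absre, absim] at h5
  have hNc' : ContinuousOn (fun z => N (sg c z)) (sg c '' E)ᶜ := by
    refine hNc.comp (sg_cont c).continuousOn fun z hz => ?_
    intro h1
    exact hz ((mem_img c E z).2 h1)
  have hcone' : ∀ w ∈ Z.image (sg c), ConeGrowth (fun z => N (sg c z)) w (dir (sg c w)) A := by
    intro w hw θ hθ
    obtain ⟨C, r, hr, h1⟩ := hcone (sg c w) ((hZ' w).1 hw) θ hθ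
    refine ⟨C, r, hr, fun z hzw hzr hz => ?_⟩
    have h2 := h1 (sg c z) (fun h => hzw (sg_inj c h)) (by rwa [nrm]) (by rwa [absre, absim])
    rwa [nrm] at h2
  obtain ⟨F, hF, hsupp, hDE, ⟨M, hM⟩, hp⟩ := h (sg c '' E) (hE.image (sg_cont c)) c
    (Z.image (sg c)) (fun z => dir (sg c z)) hG' (fun z => N (sg c z)) A (fun z => hN _) hNc' hcone'
  have hfd : ∀ z, HasFDerivAt (fun z => F (sg c z)) (-(fderiv ℝ F (sg c z))) z := by
    intro z
    have h1 : HasFDerivAt (sg c) (-(ContinuousLinearMap.id ℝ ℂ)) z := by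
      have := (hasFDerivAt_id (𝕜 := ℝ) z).const_sub (2 * (c : ℂ))
      exact this
    have h2 := (hF.diff (sg c z)).hasFDerivAt.comp z h1
    rw [ContinuousLinearMap.comp_neg, ContinuousLinearMap.comp_id] at h2
    exact h2
  have hfd' : ∀ z, fderiv ℝ (fun z => F (sg c z)) z = -(fderiv ℝ F (sg c z)) :=
    fun z => (hfd z).fderiv
  have hD : ∀ z, D (fun z => F (sg c z)) z = -D F (sg c z) := by
    intro z
    unfold D
    rw [hfd']
    simp only [neg_apply]
    ring
  have hts : ∀ z ∈ tsupport (fun z => F (sg c z)), sg c z ∈ tsupport F := by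
    have h1 : tsupport (fun z => F (sg c z)) ⊆ sg c ⁻¹' tsupport F := by
      refine closure_minimal (fun z hz => ?_) ((isClosed_tsupport F).preimage (sg_cont c))
      exact subset_tsupport F hz
    exact fun z hz => h1 hz
  refine ⟨fun z => F (sg c z), ⟨fun z => (hfd z).differentiableAt, ?_, ?_⟩, ?_, ?_, ?_, ?_⟩
  · obtain ⟨C, hC⟩ := hF.bd
    exact ⟨C, fun z => by rw [hfd', norm_neg]; exact hC _⟩
  · refine HasCompactSupport.of_support_subset_isCompact
      (IsCompact.image hF.supp (sg_cont c)) fun z hz => ?_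
    rw [mem_img]
    exact subset_tsupport F hz
  · intro z hz
    rcases hsupp _ (hts z hz) with h1 | h1
    · rw [sg_re] at h1
      exact Or.inl (by linarith)
    · right
      have := (hZ' _).1 h1
      rwa [sg_sg] at this
  · intro z hz hzE
    rw [hD, neg_ne_zero] at hz
    refine hDE _ hz ((mem_img c E _).2 ?_)
    rwa [sg_sg]
  · refine ⟨M, fun z => ?_⟩
    rw [hD, norm_neg]
    have h1 := hM (sg c z)
    rw [sg_sg, sg_re, show 2 * c - z.re - c = -(z.re - c) by ring, abs_neg] at h1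
    exact h1
  · intro p hpE hpc
    obtain ⟨h1, h2⟩ := hp (sg c p) ((mem_img c E _).2 (by rwa [sg_sg]))
      (by rw [sg_re]; linarith)
    refine ⟨h1, ?_⟩
    have h3 := ((sg_cont c).tendsto p).eventually h2
    filter_upwards [h3] with z hz
    rw [hD, hz, neg_zero]

end Pool.Agent.W613.HI
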